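import Pool.Agent.X205.FinRet.Geom

/-!
# Retractions of finite subset spaces of the line have large Lipschitz constants
-/

set_option autoImplicit false

namespace Pool.Agent.X205.FinRet

open Finset

theorem edist_ne_top {R R' : Finset ℝ} (h : R.Nonempty) (h' : R'.Nonempty) :
    Metric.hausdorffEDist ((R : Finset ℝ) : Set ℝ) ((R' : Finset ℝ) : Set ℝ) ≠ ⊤ :=
  Metric.hausdorffEDist_ne_top_of_nonempty_of_bounded (Finset.coe_nonempty.2 h)
    (Finset.coe_nonempty.2 h') R.finite_toSet.isBounded R'.finite_toSet.isBounded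

/-- Stability of well spread configurations. -/
theorem stable (n : ℕ) (β : ℝ) (hβ : 0 < β) (R R' : Finset ℝ) (z : ℕ → ℝ) (hR : Rep n R z)
    (hg : Good n z) (hw : β ≤ z (n + 1) - z 0) (hc : R'.card ≤ n + 2) (hne : R'.Nonempty)
    (hd : Metric.hausdorffDist ((R : Finset ℝ) : Set ℝ) ((R' : Finset ℝ) : Set ℝ) <
      β / 4 ^ (n + 1) / 100) :
    ∃ z', Rep n R' z' ∧ ∀ j, j < n → |rho z' j - rho z j| ≤ 1 / 16 := by
  classical
  set δ : ℝ := β / 4 ^ (n + 1) with hδ
  have hδ0 : 0 < δ := by positivity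
  have hRne : R.Nonempty := by
    rw [hR.2]
    exact ⟨z 0, Finset.mem_image_of_mem _ (by simp)⟩
  have hlow : ∀ d j, j + d = n → β / 4 ^ d ≤ z (j + 1) - z 0 := by
    intro d
    induction d with
    | zero =>
      intro j hj
      have : j = n := by omega
      subst this
      simpa using hw
    | succ d ih =>
      intro j hj
      have h1 := ih (j + 1) (by omega)
      have h2 := hg j (by omega)
      have h3 : 0 < z (j + 2) - z 0 := by
        have := hR.lt 0 (j + 2) (by omega) (by omega)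
        linarith
      have h4 : 1 / 4 * (z (j + 2) - z 0) ≤ z (j + 1) - z 0 := by
        have := h2.1
        unfold rho at this
        rw [lt_div_iff₀ h3] at this
        linarith
      have h5 : β / 4 ^ (d + 1) = 1 / 4 * (β / 4 ^ d) := by rw [pow_succ]; ring
      rw [h5]
      have h6 : z (j + 1 + 1) - z 0 = z (j + 2) - z 0 := rfl
      linarith
  have hlow' : ∀ j, j ≤ n → 4 * δ ≤ z (j + 1) - z 0 := by
    intro j hj
    refine le_trans ?_ (hlow (n - j) j (by omega))
    have h1 : 4 * δ = β / 4 ^ n := by rw [hδ, pow_succ]; ring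
    rw [h1]
    have h2 : (4 : ℝ) ^ (n - j) ≤ 4 ^ n := pow_le_pow_right₀ (by norm_num) (Nat.sub_le _ _)
    exact div_le_div_of_nonneg_left hβ.le (by positivity) h2
  have hgap : ∀ j, j < n + 1 → δ ≤ z (j + 1) - z j := by
    intro j hj
    rcases j with _ | j
    · have := hlow' 0 (by omega)
      simp only [zero_add] at this ⊢
      linarith
    · have h1 := hlow' (j + 1) (by omega)
      have h2 := (hg j (by omega)).2
      have h3 : 0 < z (j + 2) - z 0 := by
        have := hR.lt 0 (j + 2) (by omega) (by omega)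
        linarith
      unfold rho at h2
      rw [div_lt_iff₀ h3] at h2
      have h6 : z (j + 1 + 1) = z (j + 2) := rfl
      rw [h6] at h1 ⊢
      linarith
  have hex : ∀ j, j < n + 2 → ∃ y ∈ R', |z j - y| < δ / 100 := by
    intro j hj
    have hzj : z j ∈ ((R : Finset ℝ) : Set ℝ) := by
      rw [hR.2]
      exact Finset.mem_coe.2 (Finset.mem_image_of_mem _ (Finset.mem_range.2 hj))
    obtain ⟨y, hy, hyd⟩ := Metric.exists_dist_lt_of_hausdorffDist_lt hzj hd
      (edist_ne_top hRne hne)
    exact ⟨y, hy, hyd⟩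
  choose! z' hz'R hz' using hex
  have hrep : Rep n R' z' := by
    have hmono : ∀ j, j < n + 1 → z' j < z' (j + 1) := by
      intro j hj
      have h1 := abs_lt.1 (hz' j (by omega))
      have h2 := abs_lt.1 (hz' (j + 1) (by omega))
      have h3 := hgap j hj
      linarith
    refine ⟨hmono, ?_⟩
    have hrep0 : Rep n ((Finset.range (n + 2)).image z') z' := ⟨hmono, rfl⟩
    symm
    apply Finset.eq_of_subset_of_card_le
    · intro y hy
      obtain ⟨j, hj, rfl⟩ := Finset.mem_image.1 hy
      exact hz'R j (Finset.mem_range.1 hj)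
    · rw [hrep0.card]
      exact hc
  refine ⟨z', hrep, fun j hj => ?_⟩
  have h0 := abs_lt.1 (hz' 0 (by omega))
  have h1 := abs_lt.1 (hz' (j + 1) (by omega))
  have h2 := abs_lt.1 (hz' (j + 2) (by omega))
  have hB : 4 * δ ≤ z (j + 2) - z 0 := hlow' (j + 1) (by omega)
  have hA : 0 < z (j + 1) - z 0 := by
    have := hR.lt 0 (j + 1) (by omega) (by omega)
    linarith
  have hAB : z (j + 1) < z (j + 2) := hR.lt (j + 1) (j + 2) (by omega) (by omega)
  unfold rho
  set A := z (j + 1) - z 0 with hAd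
  set B := z (j + 2) - z 0 with hBd
  set A' := z' (j + 1) - z' 0 with hAd'
  set B' := z' (j + 2) - z' 0 with hBd'
  have hB0 : 0 < B := by linarith
  have hB'1 : 3 * δ ≤ B' := by rw [hBd']; linarith
  have hB'0 : 0 < B' := by linarith
  have hle : A ≤ B := by rw [hAd, hBd]; linarith
  have e : A' / B' - A / B = ((A' - A) + (A / B) * (B - B')) / B' := by
    field_simp
    ring
  rw [e, abs_div, abs_of_pos hB'0, div_le_iff₀ hB'0]
  have hq : |A / B| ≤ 1 := by
    rw [abs_of_nonneg (by positivity)]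
    exact (div_le_one hB0).2 hle
  have hA'A : |A' - A| ≤ δ / 50 := by rw [abs_le, hAd, hAd']; constructor <;> linarith
  have hB'B : |B - B'| ≤ δ / 50 := by rw [abs_le, hBd, hBd']; constructor <;> linarith
  calc |(A' - A) + A / B * (B - B')| ≤ |A' - A| + |A / B * (B - B')| := abs_add_le _ _
    _ = |A' - A| + |A / B| * |B - B'| := by rw [abs_mul]
    _ ≤ δ / 50 + 1 * (δ / 50) := by
        refine add_le_add hA'A (mul_le_mul hq hB'B (abs_nonneg _) zero_le_one)
    _ ≤ 1 / 16 * B' := by linarith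

/-- Some configuration with one point less is close. -/
theorem close_smaller (k : ℕ) (s : ℕ → ℝ) (hs : ∀ l, l < k → 0 ≤ s l ∧ s l ≤ 1) :
    ∃ A' : Finset ℝ, A'.Nonempty ∧ A'.card ≤ k + 1 ∧
      Metric.hausdorffDist ((cset k s : Finset ℝ) : Set ℝ) ((A' : Finset ℝ) : Set ℝ)
        ≤ 1 / (k + 1) := by
  classical
  have hpig : ∃ i, i < k + 1 ∧ |zz k s (i + 1) - zz k s i| ≤ 1 / ((k : ℝ) + 1) := by
    by_contra hcon
    push Not at hcon
    have hmono : ∀ j, j < k + 1 → zz k s j ≤ zz k s (j + 1) := by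
      intro j hj
      rcases j with _ | j
      · exact (T_mem k s hs 0).1
      · show T k s j ≤ T k s (j + 1)
        rw [T_step k s j (by omega)]
        have h3 := hs j (by omega)
        have h4 := T_mem k s hs (j + 1)
        nlinarith [h3.1, h3.2, h4.1, h4.2]
    have h1 : ∑ i ∈ Finset.range (k + 1), (zz k s (i + 1) - zz k s i) = 1 := by
      rw [Finset.sum_range_sub]
      show T k s k - 0 = 1
      rw [T_top k s k le_rfl, sub_zero]
    have h2 : ∑ i ∈ Finset.range (k + 1), (1 / ((k : ℝ) + 1)) <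
        ∑ i ∈ Finset.range (k + 1), (zz k s (i + 1) - zz k s i) := by
      apply Finset.sum_lt_sum_of_nonempty (by simp)
      intro i hi
      have hi' := Finset.mem_range.1 hi
      have h3 := hcon i hi'
      rwa [abs_of_nonneg (by linarith [hmono i hi'])] at h3
    rw [h1, Finset.sum_const, Finset.card_range, nsmul_eq_mul] at h2
    have h4 : ((k + 1 : ℕ) : ℝ) * (1 / ((k : ℝ) + 1)) = 1 := by
      push_cast
      field_simp
    linarith
  obtain ⟨i, hi, hgap⟩ := hpig
  have hsub : ((Finset.range (k + 2)).erase (i + 1)).image (zz k s) ⊆ cset k s :=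
    Finset.image_subset_image (Finset.erase_subset _ _)
  have hiA : zz k s i ∈ ((Finset.range (k + 2)).erase (i + 1)).image (zz k s) := by
    apply Finset.mem_image_of_mem
    rw [Finset.mem_erase, Finset.mem_range]
    omega
  refine ⟨((Finset.range (k + 2)).erase (i + 1)).image (zz k s), ⟨_, hiA⟩, ?_, ?_⟩
  · refine Finset.card_image_le.trans ?_
    rw [Finset.card_erase_of_mem (by rw [Finset.mem_range]; omega), Finset.card_range]
    omega
  · refine Metric.hausdorffDist_le_of_mem_dist (by positivity) ?_ ?_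
    · intro x hx
      rw [Finset.mem_coe] at hx
      obtain ⟨j, hj, rfl⟩ := Finset.mem_image.1 hx
      by_cases hji : j = i + 1
      · subst hji
        exact ⟨zz k s i, Finset.mem_coe.2 hiA, by rw [Real.dist_eq]; exact hgap⟩
      · refine ⟨zz k s j, Finset.mem_coe.2 (Finset.mem_image_of_mem _
          (Finset.mem_erase.2 ⟨hji, hj⟩)), ?_⟩
        rw [dist_self]; positivity
    · intro x hx
      exact ⟨x, Finset.mem_coe.2 (hsub (Finset.mem_coe.1 hx)), by rw [dist_self]; positivity⟩

/-- **Main theorem.**  For odd `n`, a retraction of the space of subsets of the line with at most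
`n + 3` points onto the space of subsets with at most `n + 2` points has no Lipschitz constant
`C ≤ (n + 2) / 4 - 1`. -/
theorem no_ret (n : ℕ) (hn : Odd n) (C : ℝ) (hC0 : 0 ≤ C) (hC : (C + 1) / (n + 2) ≤ 1 / 4)
    (r : Finset ℝ → Finset ℝ)
    (h1 : ∀ s : Finset ℝ, s.Nonempty → s.card ≤ n + 3 → (r s).Nonempty ∧ (r s).card ≤ n + 2)
    (h2 : ∀ s : Finset ℝ, s.Nonempty → s.card ≤ n + 2 → r s = s)
    (h3 : ∀ s t : Finset ℝ, s.Nonempty → s.card ≤ n + 3 → t.Nonempty → t.card ≤ n + 3 →
      Metric.hausdorffDist ((r s : Finset ℝ) : Set ℝ) ((r t : Finset ℝ) : Set ℝ)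
        ≤ C * Metric.hausdorffDist ((s : Finset ℝ) : Set ℝ) ((t : Finset ℝ) : Set ℝ)) : False := by
  classical
  set δ : ℝ := (1 / 4) / 4 ^ (n + 1) / 100 with hδ
  have hδ0 : 0 < δ := by positivity
  obtain ⟨m₀, hm₀⟩ := exists_nat_gt (C * (n + 1) / δ)
  set m : ℕ := m₀ + 8 with hm
  have hm8 : 8 ≤ m := by omega
  have hm0 : 0 < m := by omega
  have hmR : (0 : ℝ) < m := by exact_mod_cast hm0
  have hmδ : C * ((n + 1 : ℕ) * (1 / (m : ℝ))) < δ := by
    have h4 : (m₀ : ℝ) ≤ m := by rw [hm]; push_cast; linarith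
    have h5 : C * (n + 1) / δ < m := lt_of_lt_of_le hm₀ h4
    rw [div_lt_iff₀ hδ0] at h5
    have h6 : C * ((n + 1 : ℕ) * (1 / (m : ℝ))) = C * (n + 1) / m := by push_cast; ring
    rw [h6, div_lt_iff₀ hmR]
    linarith
  -- the retraction does not move the configurations much
  have hwidth : ∀ s : ℕ → ℝ, (∀ l, l < n + 1 → 0 ≤ s l ∧ s l ≤ 1) → ∀ z,
      Rep n (r (cset (n + 1) s)) z → 1 / 4 ≤ z (n + 1) - z 0 := by
    intro s hs z hz
    have hA := cset_nonempty (n + 1) s
    have hAc := card_cset_le (n + 1) s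
    obtain ⟨A', hA'1, hA'2, hA'3⟩ := close_smaller (n + 1) s hs
    have hr := h1 _ hA hAc
    have e1 := h3 _ _ hA hAc hA'1 (by omega)
    rw [h2 A' hA'1 (by omega)] at e1
    have e2 : Metric.hausdorffDist ((cset (n + 1) s : Finset ℝ) : Set ℝ)
        ((r (cset (n + 1) s) : Finset ℝ) : Set ℝ) ≤ 1 / 4 := by
      refine le_trans (Metric.hausdorffDist_triangle (t := ((A' : Finset ℝ) : Set ℝ))
        (edist_ne_top hA hA'1)) ?_
      rw [Metric.hausdorffDist_comm (s := ((A' : Finset ℝ) : Set ℝ))]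
      have e3 : C * Metric.hausdorffDist ((cset (n + 1) s : Finset ℝ) : Set ℝ)
          ((A' : Finset ℝ) : Set ℝ) ≤ C * (1 / (((n + 1 : ℕ) : ℝ) + 1)) :=
        mul_le_mul_of_nonneg_left hA'3 hC0
      refine (add_le_add hA'3 (e1.trans e3)).trans (le_trans (le_of_eq ?_) hC)
      push_cast
      ring
    have hmem : ∀ a ∈ cset (n + 1) s, ∃ y ∈ r (cset (n + 1) s), |a - y| < 3 / 8 := by
      intro a ha
      obtain ⟨y, hy, hyd⟩ := Metric.exists_dist_lt_of_hausdorffDist_lt (Finset.mem_coe.2 ha)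
        (lt_of_le_of_lt e2 (by norm_num : (1 / 4 : ℝ) < 3 / 8)) (edist_ne_top hA hr.1)
      exact ⟨y, hy, hyd⟩
    obtain ⟨y0, hy0, hy0d⟩ := hmem 0 (mem_cset.2 (Or.inl rfl))
    obtain ⟨y1, hy1, hy1d⟩ := hmem 1 (mem_cset.2 (Or.inr ⟨n + 1, le_rfl, T_top _ _ _ le_rfl⟩))
    rw [hz.2] at hy0 hy1
    obtain ⟨i, hi, rfl⟩ := Finset.mem_image.1 hy0
    obtain ⟨j, hj, rfl⟩ := Finset.mem_image.1 hy1
    rw [Finset.mem_range] at hi hj
    have g1 : z 0 ≤ z i := by
      rcases Nat.eq_zero_or_pos i with h | h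
      · rw [h]
      · exact (hz.lt 0 i h hi).le
    have g2 : z j ≤ z (n + 1) := by
      rcases Nat.lt_or_ge j (n + 1) with h | h
      · exact (hz.lt j (n + 1) h (by omega)).le
      · have : j = n + 1 := by omega
        rw [this]
    have g3 := abs_lt.1 hy0d
    have g4 := abs_lt.1 hy1d
    linarith
  -- the labelling
  obtain ⟨x, hx, hall⟩ := comb m n hn
    (fun x => label n (r (cset (n + 1) (fun l => (x l : ℝ) / m))))
    (fun v => label n (cset n (fun l => (v l : ℝ) / m)))
    (fun x => label_le _ _)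
    (by
      intro i hi v
      rw [cset_face n i v m hm0 (by omega), h2 _ (cset_nonempty _ _) (card_cset_le _ _)])
    (by
      intro v
      rw [cset_face_zero n v m, h2 _ (cset_nonempty _ _) (card_cset_le _ _)])
    (by
      intro i hi1 hi2 v
      have hc := card_face_deg n i v m hi1 (by omega)
      rw [h2 _ (cset_nonempty _ _) (by omega)]
      exact label_card hc)
    (fun q => odd_count m n hm8 _ (fun v hv => label_cset_good n m hm0 v hv)
      (fun v hv1 hv2 => label_cset_bad n m hm0 v hv1 hv2) q)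
  -- unit interval and closeness
  have hunit : ∀ y : ℕ → ℕ, (∀ i, i < n + 1 → y i = x i ∨ y i = x i + 1) →
      ∀ l, l < n + 1 → 0 ≤ (y l : ℝ) / m ∧ (y l : ℝ) / m ≤ 1 := by
    intro y hy l hl
    refine ⟨by positivity, ?_⟩
    rw [div_le_one hmR]
    have h4 := hx l hl
    have h5 : y l ≤ m := by rcases hy l hl with h | h <;> omega
    exact_mod_cast h5
  have hclose : ∀ y y' : ℕ → ℕ, (∀ i, i < n + 1 → y i = x i ∨ y i = x i + 1) →
      (∀ i, i < n + 1 → y' i = x i ∨ y' i = x i + 1) →
      Metric.hausdorffDist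
        ((r (cset (n + 1) (fun l => (y l : ℝ) / m)) : Finset ℝ) : Set ℝ)
        ((r (cset (n + 1) (fun l => (y' l : ℝ) / m)) : Finset ℝ) : Set ℝ) < δ := by
    intro y y' hy hy'
    refine lt_of_le_of_lt (h3 _ _ (cset_nonempty _ _) (card_cset_le _ _) (cset_nonempty _ _)
      (card_cset_le _ _)) (lt_of_le_of_lt ?_ hmδ)
    refine mul_le_mul_of_nonneg_left ?_ hC0
    refine cset_lip (n + 1) _ _ (1 / (m : ℝ)) (hunit y hy) (hunit y' hy') (fun l hl => ?_)
      (by positivity)
    rw [← sub_div, abs_div, abs_of_pos hmR]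
    refine div_le_div_of_nonneg_right ?_ hmR.le
    rcases hy l hl with h | h <;> rcases hy' l hl with h' | h' <;> rw [h, h'] <;> push_cast <;>
      simp
  obtain ⟨yn, hyn, hlab⟩ := hall n (by omega)
  have hexn : ∃ z, Rep n (r (cset (n + 1) (fun l => (yn l : ℝ) / m))) z ∧ Good n z := by
    by_contra hcon
    rw [label_of_not hcon] at hlab
    omega
  obtain ⟨z, hz, hg⟩ := hexn
  rw [label_of_rep hz hg] at hlab
  have hsmall : ∀ j, j < n → rho z j ≤ 1 / 2 := by
    intro j hj
    have := fst_eq (P := fun j => 1 / 2 < rho z j) hlab j hj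
    exact not_lt.1 this
  have hw := hwidth _ (hunit yn hyn) z hz
  have hst : ∀ y : ℕ → ℕ, (∀ i, i < n + 1 → y i = x i ∨ y i = x i + 1) →
      ∃ z', Rep n (r (cset (n + 1) (fun l => (y l : ℝ) / m))) z' ∧
        ∀ j, j < n → |rho z' j - rho z j| ≤ 1 / 16 := by
    intro y hy
    have hr := h1 _ (cset_nonempty (n + 1) (fun l => (y l : ℝ) / m)) (card_cset_le _ _)
    exact stable n (1 / 4) (by norm_num) _ _ z hz hg hw hr.2 hr.1 (hclose yn y hyn hy)
  have hlarge : ∀ j, j < n → 7 / 16 < rho z j := by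
    intro j hj
    obtain ⟨y, hy, hyl⟩ := hall j (by omega)
    obtain ⟨z', hz', hd⟩ := hst y hy
    have hex : ∃ z, Rep n (r (cset (n + 1) (fun l => (y l : ℝ) / m))) z ∧ Good n z := by
      by_contra hcon
      rw [label_of_not hcon] at hyl
      omega
    obtain ⟨w, hw1, hw2⟩ := hex
    have huniq := hw1.unique hz'
    have hrho : rho w j = rho z' j := by
      unfold rho
      rw [huniq 0 (by omega), huniq (j + 1) (by omega), huniq (j + 2) (by omega)]
    rw [label_of_rep hw1 hw2] at hyl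
    have h4 : (fun j => 1 / 2 < rho w j) (fst n (fun j => 1 / 2 < rho w j)) :=
      fst_lt (n := n) (P := fun j => 1 / 2 < rho w j) (by omega)
    rw [hyl] at h4
    have h5 : 1 / 2 < rho w j := h4
    have h6 := abs_le.1 (hd j hj)
    rw [hrho] at h5
    linarith
  obtain ⟨y, hy, hyl⟩ := hall (n + 1) le_rfl
  obtain ⟨z', hz', hd⟩ := hst y hy
  have hg' : Good n z' := by
    intro j hj
    have h4 := hsmall j hj
    have h5 := hlarge j hj
    have h6 := abs_le.1 (hd j hj)
    constructor <;> linarith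
  rw [label_of_rep hz' hg'] at hyl
  have := fst_le n (fun j => 1 / 2 < rho z' j)
  omega

end Pool.Agent.X205.FinRet
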