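import Pool.Agent.X205.FinRet.Faces

/-!
# The parity argument

A labelling of the grid `{0,…,m}^(n+1)`, `n` odd, by `0,…,n+1` whose restrictions to the facets
`x_i = m` and to the facet `x_0 = 0` all coincide with a labelling `lam'` having an odd number of
completely labelled simplices, and which has the label `n + 1` on the other facets, has a
completely labelled cube.
-/

set_option autoImplicit false

namespace Pool.Agent.X205.FinRet

open Pool.Agent.Helper562.Kuhn

theorem ind_missing {R : Multiset ℕ} {L : List ℕ} {j : ℕ} (hj : j ∈ R) (hL : j ∉ L) :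
    ind R L = 0 := by
  classical
  simp only [ind]
  rw [if_neg]
  intro e
  have : j ∈ (L : Multiset ℕ) := by rw [e]; exact hj
  exact hL (by simpa using this)

theorem grid_congr (m : ℕ) (p : ℕ → ℕ) (k : ℕ) (φ ψ : List (ℕ → ℕ) → ZMod 2)
    (h : ∀ l : List (ℕ → ℕ), ∀ x : ℕ → ℕ, (∀ i, i < k → x i < m) →
      (∀ y ∈ l, ∀ i, i < k → y i = x i ∨ y i = x i + 1) → φ l = ψ l) :
    grid m p k φ = grid m p k ψ := by
  have h1 : grid m p k (fun l => φ l + ψ l) = 0 := by
    by_contra hne
    obtain ⟨l, h2, x, hx, h3⟩ := grid_supp _ _ _ _ hne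
    apply h2
    rw [h l x hx fun y hy => (h3 y hy).1]
    exact two_eq _
  rw [grid_add] at h1
  have h2 := two_eq (grid m p k ψ)
  linear_combination h1 - h2

theorem comb (m n : ℕ) (hn : Odd n) (lam lam' : (ℕ → ℕ) → ℕ)
    (hle : ∀ x, lam x ≤ n + 1)
    (hfaces : ∀ i, i < n + 1 → ∀ v, lam (ins i m v) = lam' v)
    (h0 : ∀ v, lam (ins 0 0 v) = lam' v)
    (hdeg : ∀ i, 1 ≤ i → i < n + 1 → ∀ v, lam (ins i 0 v) = n + 1)
    (hodd : ∀ q, grid m q n (fun l => ind (Multiset.range (n + 1)) (l.map lam')) = 1) :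
    ∃ x : ℕ → ℕ, (∀ i, i < n + 1 → x i < m) ∧ ∀ j, j ≤ n + 1 → ∃ y : ℕ → ℕ,
      (∀ i, i < n + 1 → y i = x i ∨ y i = x i + 1) ∧ lam y = j := by
  classical
  have e1 : (fun l : List (ℕ → ℕ) => ind (Multiset.range (n + 2)) (l.map lam)) =
      fun l => del l (fun l' => ind (Multiset.range (n + 1)) (l'.map lam)) := by
    funext l
    rw [← del_map lam l (ind (Multiset.range (n + 1))), del_ind_range]
    intro a ha
    obtain ⟨x, _, rfl⟩ := List.mem_map.1 ha
    exact hle x
  have hm : ∀ i, i < n + 1 → ∀ q, grid m q n (fun l => ind (Multiset.range (n + 1))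
      ((l.map (ins i m)).map lam)) = 1 := by
    intro i hi q
    rw [← hodd q]
    congr 1
    funext l
    rw [List.map_map]
    congr 1
    exact List.map_congr_left fun v _ => hfaces i hi v
  have hz : ∀ q, grid m q n (fun l => ind (Multiset.range (n + 1))
      ((l.map (ins 0 0)).map lam)) = 1 := by
    intro q
    rw [← hodd q]
    congr 1
    funext l
    rw [List.map_map]
    congr 1
    exact List.map_congr_left fun v _ => h0 v
  have hd : ∀ i, 1 ≤ i → i < n + 1 → ∀ q, grid m q n (fun l => ind (Multiset.range (n + 1))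
      ((l.map (ins i 0)).map lam)) = 0 := by
    intro i hi1 hi2 q
    apply grid_zero
    intro l
    refine ind_missing (j := 0) (by rw [Multiset.mem_range]; omega) ?_
    intro h
    rw [List.map_map, List.mem_map] at h
    obtain ⟨v, -, hv⟩ := h
    have := hdeg i hi1 hi2 v
    simp only [Function.comp] at hv
    omega
  have hsum : grid m (fun _ => 0) (n + 1)
      (fun l => ind (Multiset.range (n + 2)) (l.map lam)) = 1 := by
    rw [e1, grid_faces, Finset.sum_add_distrib]
    rw [Finset.sum_congr rfl fun i hi => hm i (Finset.mem_range.1 hi) _]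
    rw [Finset.sum_range_succ' (fun i => grid m (shift fun _ => 0) n fun l =>
      ind (Multiset.range (n + 1)) (List.map lam (List.map (ins i 0) l))) n, hz]
    rw [Finset.sum_eq_zero fun i hi => hd (i + 1) (by omega)
      (by have := Finset.mem_range.1 hi; omega) _]
    obtain ⟨c, rfl⟩ := hn
    simp only [Finset.sum_const, Finset.card_range, nsmul_eq_mul, mul_one, zero_add]
    push_cast
    have h2 : (2 : ZMod 2) = 0 := rfl
    linear_combination ((c : ZMod 2) + 1) * h2
  have hne : grid m (fun _ => 0) (n + 1)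
      (fun l => ind (Multiset.range (n + 2)) (l.map lam)) ≠ 0 := by
    rw [hsum]; decide
  obtain ⟨l, h4, x, hx, h5⟩ := grid_supp _ _ _ _ hne
  refine ⟨x, hx, ?_⟩
  intro j hj
  simp only [ind, ne_eq, ite_eq_right_iff, one_ne_zero, imp_false, not_not] at h4
  have hmem : j ∈ ((l.map lam : List ℕ) : Multiset ℕ) := by
    rw [h4, Multiset.mem_range]; omega
  rw [Multiset.mem_coe, List.mem_map] at hmem
  obtain ⟨y, hy, hyj⟩ := hmem
  exact ⟨y, (h5 y hy).1, hyj⟩

/-- The first index `j < n` with `P j`, and `n` if there is none. -/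
noncomputable def fst (n : ℕ) (P : ℕ → Prop) : ℕ := by
  classical
  exact Nat.find (⟨n, Or.inr rfl⟩ : ∃ j, P j ∨ j = n)

theorem fst_le (n : ℕ) (P : ℕ → Prop) : fst n P ≤ n := by
  classical
  exact Nat.find_min' _ (Or.inr rfl)

theorem fst_lt {n : ℕ} {P : ℕ → Prop} (h : fst n P < n) : P (fst n P) := by
  classical
  rcases Nat.find_spec (⟨n, Or.inr rfl⟩ : ∃ j, P j ∨ j = n) with h1 | h1
  · exact h1
  · exact absurd h1 (ne_of_lt h)

theorem fst_eq {n : ℕ} {P : ℕ → Prop} (h : fst n P = n) : ∀ j, j < n → ¬ P j := by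
  classical
  intro j hj hP
  have : fst n P ≤ j := Nat.find_min' _ (Or.inl hP)
  omega

theorem fst_le_of {n : ℕ} {P : ℕ → Prop} {j : ℕ} (h : P j) : fst n P ≤ j := by
  classical
  exact Nat.find_min' _ (Or.inl h)

theorem fst_congr {n : ℕ} {P Q : ℕ → Prop} (h : ∀ j, j < n → (P j ↔ Q j)) : fst n P = fst n Q := by
  apply le_antisymm
  · by_contra hlt
    push Not at hlt
    have h1 : fst n Q < n := lt_of_lt_of_le hlt (fst_le n P)
    have h2 := (h _ h1).2 (fst_lt h1)
    have h3 : fst n P ≤ fst n Q := fst_le_of h2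
    omega
  · by_contra hlt
    push Not at hlt
    have h1 : fst n P < n := lt_of_lt_of_le hlt (fst_le n Q)
    have h2 := (h _ h1).1 (fst_lt h1)
    have h3 : fst n Q ≤ fst n P := fst_le_of h2
    omega

/-- A labelling agreeing, near the centre, with the labelling `first coordinate larger than m / 2`,
and having the label `n + 1` elsewhere, has an odd number of completely labelled simplices. -/
theorem odd_count (m n : ℕ) (hm : 8 ≤ m) (lam' : (ℕ → ℕ) → ℕ)
    (h1 : ∀ v : ℕ → ℕ, (∀ j, j < n → (m : ℝ) / 4 < v j ∧ (v j : ℝ) < 3 * m / 4) →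
      lam' v = fst n (fun j => (m : ℝ) / 2 < v j))
    (h2 : ∀ v : ℕ → ℕ, (∀ j, j < n → v j ≤ m) →
      ¬ (∀ j, j < n → (m : ℝ) / 4 < v j ∧ (v j : ℝ) < 3 * m / 4) → lam' v = n + 1)
    (q : ℕ → ℕ) :
    grid m q n (fun l => ind (Multiset.range (n + 1)) (l.map lam')) = 1 := by
  classical
  have hmR : (8 : ℝ) ≤ m := by exact_mod_cast hm
  rw [← kuhn_parity m q n (fun v => fst n (fun j => (m : ℝ) / 2 < v j)) (fun x => fst_le _ _)
    (by
      intro i hi x hx h
      have h3 : (fun j => (m : ℝ) / 2 < x j) (fst n (fun j => (m : ℝ) / 2 < x j)) :=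
        fst_lt (n := n) (P := fun j => (m : ℝ) / 2 < x j) (by omega)
      simp only [h, hx] at h3
      norm_num at h3
      linarith)
    (by
      intro i hi x hx
      refine fst_le_of ?_
      show (m : ℝ) / 2 < x i
      rw [hx]
      linarith)]
  apply grid_congr
  intro l x hx hl
  -- the centre lies in the cube
  have hcentre : (∀ j, j < n → ((x j : ℝ) ≤ m / 2 ∧ (m : ℝ) / 2 < x j + 1)) →
      l.map lam' = l.map (fun v => fst n (fun j => (m : ℝ) / 2 < v j)) := by
    intro hc
    refine List.map_congr_left fun y hy => ?_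
    refine h1 y fun j hj => ?_
    have h3 := hc j hj
    have h4 : (y j : ℝ) = x j ∨ (y j : ℝ) = x j + 1 := by
      rcases hl y hy j hj with h | h <;> rw [h]
      · exact Or.inl rfl
      · right; push_cast; rfl
    rcases h4 with h | h <;> rw [h] <;> constructor <;> linarith
  have hfull : ∀ f : (ℕ → ℕ) → ℕ, (∀ y ∈ l, f y ≤ n → f y = fst n (fun j => (m : ℝ) / 2 < y j)) →
      ind (Multiset.range (n + 1)) (l.map f) ≠ 0 →
      (∀ j, j < n → ((x j : ℝ) ≤ m / 2 ∧ (m : ℝ) / 2 < x j + 1)) := by
    intro f hf hne j hj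
    simp only [ind, ne_eq, ite_eq_right_iff, one_ne_zero, imp_false, not_not] at hne
    have hget : ∀ a, a ≤ n → ∃ y ∈ l, f y = a := by
      intro a ha
      have hmem : a ∈ ((l.map f : List ℕ) : Multiset ℕ) := by
        rw [hne, Multiset.mem_range]; omega
      rw [Multiset.mem_coe, List.mem_map] at hmem
      exact hmem
    obtain ⟨y, hy, hyn⟩ := hget n le_rfl
    obtain ⟨z, hz, hzj⟩ := hget j hj.le
    have e1 := hf y hy (by omega)
    have e2 := hf z hz (by omega)
    have e3 : ¬ ((m : ℝ) / 2 < y j) := fst_eq (P := fun j => (m : ℝ) / 2 < y j)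
      (by rw [← e1, hyn]) j hj
    have e4 : (m : ℝ) / 2 < z j := by
      have h3 : fst n (fun j => (m : ℝ) / 2 < z j) = j := by rw [← e2, hzj]
      have h4 : (fun j => (m : ℝ) / 2 < z j) (fst n (fun j => (m : ℝ) / 2 < z j)) :=
        fst_lt (n := n) (P := fun j => (m : ℝ) / 2 < z j) (by omega)
      rw [h3] at h4
      exact h4
    push Not at e3
    constructor
    · rcases hl y hy j hj with h | h
      · rw [h] at e3; exact e3
      · rw [h] at e3; push_cast at e3; linarith
    · rcases hl z hz j hj with h | h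
      · rw [h] at e4; linarith
      · rw [h] at e4; push_cast at e4; exact e4
  by_cases hA : ind (Multiset.range (n + 1)) (l.map lam') = 0
  · by_cases hB : ind (Multiset.range (n + 1))
        (l.map (fun v => fst n (fun j => (m : ℝ) / 2 < v j))) = 0
    · rw [hA, hB]
    · rw [hcentre (hfull _ (fun _ _ _ => rfl) hB)]
  · rw [hcentre (hfull lam' ?_ hA)]
    intro y hy hyn
    by_cases hbox : ∀ j, j < n → (m : ℝ) / 4 < y j ∧ (y j : ℝ) < 3 * m / 4
    · exact h1 y hbox
    · have := h2 y (fun j hj => by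
        have := hx j hj
        rcases hl y hy j hj with h | h <;> omega) hbox
      omega

end Pool.Agent.X205.FinRet
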