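import Pool.Agent.Helper562.Kuhn

/-!
# The boundary of the triangulated cube, mod 2

`grid m p (k + 1)` of a coboundary is the sum over the `2 (k + 1)` facets.
-/

set_option autoImplicit false

namespace Pool.Agent.X205.FinRet

open Pool.Agent.Helper562.Kuhn

theorem prism_map {V W U : Type*} (g : U → V) (b t : V → W) (l : List U)
    (φ : List W → ZMod 2) :
    prism b t (l.map g) φ = prism (fun v => b (g v)) (fun v => t (g v)) l φ := by
  induction l generalizing φ with
  | nil => simp [prism]
  | cons v l ih =>
    simp only [prism, List.map_cons, List.map_map]
    rw [ih]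
    rfl

theorem prism_comp_map {V W U : Type*} (b t : V → W) (g : W → U) (l : List V)
    (φ : List U → ZMod 2) :
    prism b t l (fun l' => φ (l'.map g)) = prism (fun v => g (b v)) (fun v => g (t v)) l φ := by
  induction l generalizing φ with
  | nil => simp [prism]
  | cons v l ih =>
    simp only [prism, List.map_cons, List.map_map]
    rw [ih (fun l' => φ (g (b v) :: l'))]
    rfl

/-- Insert the coordinate `c` at place `i`. -/
def ins (i c : ℕ) (v : ℕ → ℕ) : ℕ → ℕ :=
  fun j => if j < i then v j else if j = i then c else v (j - 1)

/-- Shift of the base point. -/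
def shift (p : ℕ → ℕ) : ℕ → ℕ := fun j => p (j + 1)

/-- Replace the coordinates from `k` on by those of `q`. -/
def tail (k : ℕ) (q v : ℕ → ℕ) : ℕ → ℕ := fun j => if j < k then v j else q j

theorem grid_tail (m : ℕ) (p q : ℕ → ℕ) (k : ℕ) (ψ : List (ℕ → ℕ) → ZMod 2) :
    grid m p k ψ = grid m q k (fun l => ψ (l.map (tail k p))) := by
  induction k generalizing ψ with
  | zero =>
    simp only [grid, List.map_cons, List.map_nil]
    congr 2
  | succ k ih =>
    simp only [grid]
    refine Finset.sum_congr rfl fun t _ => ?_
    rw [ih]
    congr 1
    funext l
    rw [prism_map, prism_comp_map]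
    congr 1
    · funext v
      funext j
      simp only [tail, Function.update_apply]
      by_cases h1 : j = k
      · subst h1; simp
      · by_cases h2 : j < k
        · simp [h1, h2, Nat.lt_succ_of_lt h2]
        · have h3 : ¬ j < k + 1 := by omega
          simp [h1, h2, h3]
    · funext v
      funext j
      simp only [tail, Function.update_apply]
      by_cases h1 : j = k
      · subst h1; simp
      · by_cases h2 : j < k
        · simp [h1, h2, Nat.lt_succ_of_lt h2]
        · have h3 : ¬ j < k + 1 := by omega
          simp [h1, h2, h3]

theorem ins_update (i c k t : ℕ) (hi : i ≤ k) (v : ℕ → ℕ) :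
    ins i c (Function.update v k t) = Function.update (ins i c v) (k + 1) t := by
  funext j
  simp only [ins, Function.update_apply]
  by_cases h1 : j = k + 1
  · subst h1
    have h2 : ¬ (k + 1 < i) := by omega
    have h3 : k + 1 ≠ i := by omega
    simp [h2, h3]
  · by_cases h2 : j < i
    · have h3 : j ≠ k := by omega
      simp [h1, h2, h3]
    · by_cases h4 : j = i
      · simp [h1, h2, h4]
        omega
      · have h5 : j - 1 ≠ k := by omega
        simp [h1, h2, h4, h5]

/-- The boundary formula. -/
theorem grid_faces (m : ℕ) (p : ℕ → ℕ) (k : ℕ) (φ : List (ℕ → ℕ) → ZMod 2) :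
    grid m p (k + 1) (fun l => del l φ) =
      ∑ i ∈ Finset.range (k + 1), (grid m (shift p) k (fun l => φ (l.map (ins i m))) +
        grid m (shift p) k (fun l => φ (l.map (ins i 0)))) := by
  have last : ∀ (k : ℕ) (c : ℕ) (φ : List (ℕ → ℕ) → ZMod 2),
      grid m p k (fun l => φ (l.map (fun v => Function.update v k c))) =
      grid m (shift p) k (fun l => φ (l.map (ins k c))) := by
    intro k c φ
    rw [grid_tail m p (shift p) k]
    rw [grid_tail m (shift p) (shift p) k (fun l => φ (l.map (ins k c)))]
    congr 1
    funext l
    rw [List.map_map, List.map_map]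
    congr 1
    refine List.map_congr_left fun v _ => ?_
    funext j
    simp only [Function.comp, tail, ins, shift, Function.update_apply]
    by_cases h1 : j = k
    · subst h1; simp
    · by_cases h2 : j < k
      · simp [h1, h2]
      · have h3 : ¬ (j - 1 < k) := by omega
        have h4 : j - 1 + 1 = j := by omega
        simp [h1, h2, h3, h4]
  induction k generalizing φ with
  | zero =>
    rw [grid_del, last 0 m φ, last 0 0 φ]
    have h1 : ∀ t, grid m p 0 (fun l => del l (fun l' =>
        prism (fun v => Function.update v 0 t) (fun v => Function.update v 0 (t + 1)) l' φ)) = 0 := by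
      intro t
      simp [grid, del, prism]
    simp [h1]
  | succ k ih =>
    rw [grid_del, last (k + 1) m φ, last (k + 1) 0 φ, Finset.sum_range_succ _ (k + 1), ← add_assoc]
    congr 2
    -- the first `k + 1` coordinates
    have h1 : ∀ t, grid m p (k + 1) (fun l => del l (fun l' =>
        prism (fun v => Function.update v (k + 1) t) (fun v => Function.update v (k + 1) (t + 1))
          l' φ)) =
        ∑ i ∈ Finset.range (k + 1), (grid m (shift p) k (fun l =>
          prism (fun v => Function.update v k t) (fun v => Function.update v k (t + 1)) l
            (fun l' => φ (l'.map (ins i m)))) +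
          grid m (shift p) k (fun l =>
          prism (fun v => Function.update v k t) (fun v => Function.update v k (t + 1)) l
            (fun l' => φ (l'.map (ins i 0))))) := by
      intro t
      rw [ih]
      refine Finset.sum_congr rfl fun i hi => ?_
      have hi' : i ≤ k := by
        have := Finset.mem_range.1 hi
        omega
      have h2 : ∀ c, (fun l : List (ℕ → ℕ) => prism (fun v => Function.update v (k + 1) t)
          (fun v => Function.update v (k + 1) (t + 1)) (l.map (ins i c)) φ) =
          fun l => prism (fun v => Function.update v k t) (fun v => Function.update v k (t + 1)) l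
            (fun l' => φ (l'.map (ins i c))) := by
        intro c
        funext l
        rw [prism_map, prism_comp_map]
        congr 1
        · funext v
          rw [ins_update i c k t hi']
        · funext v
          rw [ins_update i c k (t + 1) hi']
      rw [h2, h2]
    rw [Finset.sum_congr rfl fun t _ => h1 t, Finset.sum_comm]
    refine Finset.sum_congr rfl fun i _ => ?_
    rw [Finset.sum_add_distrib]
    rfl

end Pool.Agent.X205.FinRet
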