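import Pool.Agent.X205.FinRet.Main

/-!
# Retractions of finite subset spaces of inner product spaces
-/

set_option autoImplicit false

namespace Pool.Agent.X205.FinRet

open Finset

theorem edist_ne_top' {H : Type*} [NormedAddCommGroup H] {R R' : Finset H} (h : R.Nonempty)
    (h' : R'.Nonempty) :
    Metric.hausdorffEDist ((R : Finset H) : Set H) ((R' : Finset H) : Set H) ≠ ⊤ :=
  Metric.hausdorffEDist_ne_top_of_nonempty_of_bounded (Finset.coe_nonempty.2 h)
    (Finset.coe_nonempty.2 h') R.finite_toSet.isBounded R'.finite_toSet.isBounded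

open Classical in
theorem image_le {H : Type*} [NormedAddCommGroup H] (f : H → ℝ)
    (hf : ∀ x y, |f x - f y| ≤ ‖x - y‖) (s t : Finset H) (hs : s.Nonempty) (ht : t.Nonempty) :
    Metric.hausdorffDist ((s.image f : Finset ℝ) : Set ℝ) ((t.image f : Finset ℝ) : Set ℝ) ≤
      Metric.hausdorffDist ((s : Finset H) : Set H) ((t : Finset H) : Set H) := by
  refine le_of_forall_pos_le_add fun ε hε => ?_
  have key : ∀ s t : Finset H, s.Nonempty → t.Nonempty →
      ∀ x ∈ ((s.image f : Finset ℝ) : Set ℝ), ∃ y ∈ ((t.image f : Finset ℝ) : Set ℝ),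
      dist x y ≤ Metric.hausdorffDist ((s : Finset H) : Set H) ((t : Finset H) : Set H) + ε := by
    intro s t hs ht x hx
    rw [Finset.mem_coe] at hx
    obtain ⟨a, ha, rfl⟩ := Finset.mem_image.1 hx
    obtain ⟨b, hb, hab⟩ := Metric.exists_dist_lt_of_hausdorffDist_lt (Finset.mem_coe.2 ha)
      (lt_add_of_pos_right _ hε) (edist_ne_top' hs ht)
    refine ⟨f b, Finset.mem_coe.2 (Finset.mem_image_of_mem _ (Finset.mem_coe.1 hb)), ?_⟩
    rw [Real.dist_eq]
    rw [dist_eq_norm] at hab
    exact (hf a b).trans hab.le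
  refine Metric.hausdorffDist_le_of_mem_dist
    (add_nonneg Metric.hausdorffDist_nonneg hε.le) (key s t hs ht) ?_
  rw [Metric.hausdorffDist_comm]
  exact key t s ht hs

/-- For even `N ≥ 4` and a nontrivial real inner product space `H`, every retraction of the space
of nonempty subsets with at most `N` points onto the space of nonempty subsets with at most `N - 1`
points which is Lipschitz with constant `C` satisfies `C > (N - 1) / 4 - 1`. -/
theorem no_ret_inner (H : Type*) [NormedAddCommGroup H] [InnerProductSpace ℝ H] [Nontrivial H]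
    (N : ℕ) (hN : Even N) (hN4 : 4 ≤ N) (C : ℝ) (hC0 : 0 ≤ C) (r : Finset H → Finset H)
    (h1 : ∀ s : Finset H, s.Nonempty → s.card ≤ N → (r s).Nonempty ∧ (r s).card ≤ N - 1)
    (h2 : ∀ s : Finset H, s.Nonempty → s.card ≤ N - 1 → r s = s)
    (h3 : ∀ s t : Finset H, s.Nonempty → s.card ≤ N → t.Nonempty → t.card ≤ N →
      Metric.hausdorffDist ((r s : Finset H) : Set H) ((r t : Finset H) : Set H)
        ≤ C * Metric.hausdorffDist ((s : Finset H) : Set H) ((t : Finset H) : Set H)) :
    ((N : ℝ) - 1) / 4 - 1 < C := by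
  classical
  by_contra hcon
  push Not at hcon
  obtain ⟨e, he⟩ := exists_norm_eq H zero_le_one
  obtain ⟨M, hM⟩ := hN
  obtain ⟨n, hn⟩ : ∃ n, N = n + 3 := ⟨N - 3, by omega⟩
  have hodd : Odd n := ⟨M - 2, by omega⟩
  subst hn
  have e1 : n + 3 - 1 = n + 2 := by omega
  rw [e1] at h1 h2
  let f : H → ℝ := fun h => inner ℝ e h
  have hf : ∀ x y, |f x - f y| ≤ ‖x - y‖ := by
    intro x y
    have : f x - f y = inner ℝ e (x - y) := by simp only [f]; rw [inner_sub_right]
    rw [this]
    have h4 := abs_real_inner_le_norm e (x - y)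
    rwa [he, one_mul] at h4
  let g : ℝ → H := fun x => x • e
  have hfg : ∀ x, f (g x) = x := by
    intro x
    simp only [f, g]
    rw [inner_smul_right, real_inner_self_eq_norm_sq, he]
    norm_num
  have hg : Isometry g := by
    refine Isometry.of_dist_eq fun x y => ?_
    simp only [g]
    rw [dist_eq_norm, ← sub_smul, norm_smul, he, mul_one, Real.dist_eq, Real.norm_eq_abs]
  have himg : ∀ s : Finset ℝ, (s.image g).card = s.card := fun s =>
    Finset.card_image_of_injective _ hg.injective
  refine no_ret n hodd C hC0 ?_ (fun s => (r (s.image g)).image f) ?_ ?_ ?_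
  · rw [div_le_iff₀ (by positivity)]
    push_cast at hcon
    linarith
  · intro s hs hc
    have h4 := h1 (s.image g) (hs.image g) (by rw [himg]; exact hc)
    exact ⟨h4.1.image f, Finset.card_image_le.trans h4.2⟩
  · intro s hs hc
    show (r (s.image g)).image f = s
    rw [h2 (s.image g) (hs.image g) (by rw [himg]; exact hc), Finset.image_image]
    have : f ∘ g = id := funext hfg
    rw [this, Finset.image_id]
  · intro s t hs hsc ht htc
    have h4 := h1 (s.image g) (hs.image g) (by rw [himg]; exact hsc)
    have h5 := h1 (t.image g) (ht.image g) (by rw [himg]; exact htc)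
    refine (image_le f hf _ _ h4.1 h5.1).trans ((h3 _ _ (hs.image g) (by rw [himg]; exact hsc)
      (ht.image g) (by rw [himg]; exact htc)).trans (le_of_eq ?_))
    rw [Finset.coe_image, Finset.coe_image, Metric.hausdorffDist_image hg]

end Pool.Agent.X205.FinRet
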