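import Pool.Agent.X205.FinRet.Comb

/-!
# The labelling of finite subsets of the line
-/

set_option autoImplicit false

namespace Pool.Agent.X205.FinRet

open Finset

/-- `T k s j = s_j s_{j+1} ⋯ s_{k-1}`. -/
noncomputable def T (k : ℕ) (s : ℕ → ℝ) (j : ℕ) : ℝ := ∏ l ∈ Finset.Ico j k, s l

theorem T_top (k : ℕ) (s : ℕ → ℝ) (j : ℕ) (h : k ≤ j) : T k s j = 1 := by
  unfold T
  rw [Finset.Ico_eq_empty (by omega), Finset.prod_empty]

theorem T_step (k : ℕ) (s : ℕ → ℝ) (j : ℕ) (h : j < k) : T k s j = s j * T k s (j + 1) := by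
  unfold T
  rw [Finset.prod_eq_prod_Ico_succ_bot h]

/-- The points of the configuration with parameters `s`. -/
noncomputable def zz (k : ℕ) (s : ℕ → ℝ) : ℕ → ℝ
  | 0 => 0
  | j + 1 => T k s j

/-- The configuration with parameters `s`. -/
noncomputable def cset (k : ℕ) (s : ℕ → ℝ) : Finset ℝ := (Finset.range (k + 2)).image (zz k s)

theorem mem_cset {k : ℕ} {s : ℕ → ℝ} {a : ℝ} :
    a ∈ cset k s ↔ a = 0 ∨ ∃ j, j ≤ k ∧ T k s j = a := by
  unfold cset
  rw [Finset.mem_image]
  constructor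
  · rintro ⟨j, hj, rfl⟩
    rcases j with _ | j
    · exact Or.inl rfl
    · refine Or.inr ⟨j, ?_, rfl⟩
      have := Finset.mem_range.1 hj
      omega
  · rintro (rfl | ⟨j, hj, rfl⟩)
    · exact ⟨0, by simp, rfl⟩
    · exact ⟨j + 1, by rw [Finset.mem_range]; omega, rfl⟩

theorem card_cset_le (k : ℕ) (s : ℕ → ℝ) : (cset k s).card ≤ k + 2 := by
  unfold cset
  exact Finset.card_image_le.trans (by simp)

theorem cset_nonempty (k : ℕ) (s : ℕ → ℝ) : (cset k s).Nonempty :=
  ⟨0, mem_cset.2 (Or.inl rfl)⟩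

theorem T_ins_gt (n i : ℕ) (c : ℕ) (v : ℕ → ℕ) (m : ℝ) (hi : i ≤ n) :
    ∀ d j, j + d = n + 1 → i < j →
      T (n + 1) (fun l => (ins i c v l : ℝ) / m) j = T n (fun l => (v l : ℝ) / m) (j - 1) := by
  intro d
  induction d with
  | zero =>
    intro j hj hij
    rw [T_top _ _ _ (by omega), T_top _ _ _ (by omega)]
  | succ d ih =>
    intro j hj hij
    rw [T_step (n + 1) _ j (by omega), T_step n _ (j - 1) (by omega),
      ih (j + 1) (by omega) (by omega)]
    have h1 : ins i c v j = v (j - 1) := by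
      have h2 : ¬ j < i := by omega
      have h3 : j ≠ i := by omega
      simp [ins, h2, h3]
    rw [h1]
    have h4 : j + 1 - 1 = j - 1 + 1 := by omega
    rw [h4]

theorem T_ins_le (n i : ℕ) (v : ℕ → ℕ) (m : ℕ) (hm : 0 < m) (hi : i ≤ n) :
    ∀ d j, j + d = i →
      T (n + 1) (fun l => (ins i m v l : ℝ) / m) j = T n (fun l => (v l : ℝ) / m) j := by
  have hmR : (m : ℝ) ≠ 0 := by positivity
  intro d
  induction d with
  | zero =>
    intro j hj
    have hj : j = i := by omega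
    subst hj
    rw [T_step (n + 1) _ j (by omega), T_ins_gt n j m v m hi (n - j) (j + 1) (by omega) (by omega)]
    simp [ins, hmR]
  | succ d ih =>
    intro j hj
    rw [T_step (n + 1) _ j (by omega), T_step n _ j (by omega), ih (j + 1) (by omega)]
    have h1 : ins i m v j = v j := by
      have h2 : j < i := by omega
      simp [ins, h2]
    rw [h1]

theorem cset_face (n i : ℕ) (v : ℕ → ℕ) (m : ℕ) (hm : 0 < m) (hi : i ≤ n) :
    cset (n + 1) (fun l => (ins i m v l : ℝ) / m) = cset n (fun l => (v l : ℝ) / m) := by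
  ext a
  rw [mem_cset, mem_cset]
  refine or_congr Iff.rfl ?_
  constructor
  · rintro ⟨j, hj, rfl⟩
    by_cases h : j ≤ i
    · exact ⟨j, by omega, (T_ins_le n i v m hm hi (i - j) j (by omega)).symm⟩
    · exact ⟨j - 1, by omega, (T_ins_gt n i m v m hi (n + 1 - j) j (by omega) (by omega)).symm⟩
  · rintro ⟨j, hj, rfl⟩
    by_cases h : j ≤ i
    · exact ⟨j, by omega, T_ins_le n i v m hm hi (i - j) j (by omega)⟩
    · refine ⟨j + 1, by omega, ?_⟩
      rw [T_ins_gt n i m v m hi (n - j) (j + 1) (by omega) (by omega)]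
      simp

theorem T_ins_zero (n i : ℕ) (v : ℕ → ℕ) (m : ℝ) (hi : i ≤ n) (j : ℕ) (hj : j ≤ i) :
    T (n + 1) (fun l => (ins i 0 v l : ℝ) / m) j = 0 := by
  unfold T
  refine Finset.prod_eq_zero (i := i) (by rw [Finset.mem_Ico]; omega) ?_
  simp [ins]

theorem cset_face_zero (n : ℕ) (v : ℕ → ℕ) (m : ℝ) :
    cset (n + 1) (fun l => (ins 0 0 v l : ℝ) / m) = cset n (fun l => (v l : ℝ) / m) := by
  ext a
  rw [mem_cset, mem_cset]
  constructor
  · rintro (h | ⟨j, hj, rfl⟩)
    · exact Or.inl h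
    · by_cases h : j = 0
      · left
        exact T_ins_zero n 0 v m (by omega) j (by omega)
      · right
        exact ⟨j - 1, by omega, (T_ins_gt n 0 0 v m (by omega) (n + 1 - j) j (by omega)
          (by omega)).symm⟩
  · rintro (h | ⟨j, hj, rfl⟩)
    · exact Or.inl h
    · right
      refine ⟨j + 1, by omega, ?_⟩
      rw [T_ins_gt n 0 0 v m (by omega) (n - j) (j + 1) (by omega) (by omega)]
      simp

theorem card_face_deg (n i : ℕ) (v : ℕ → ℕ) (m : ℝ) (hi1 : 1 ≤ i) (hi : i ≤ n) :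
    (cset (n + 1) (fun l => (ins i 0 v l : ℝ) / m)).card ≤ n + 1 := by
  have hsub : cset (n + 1) (fun l => (ins i 0 v l : ℝ) / m) ⊆
      insert 0 ((Finset.Ico (i + 1) (n + 2)).image (T (n + 1) (fun l => (ins i 0 v l : ℝ) / m))) := by
    intro a ha
    rw [mem_cset] at ha
    rw [Finset.mem_insert]
    rcases ha with h | ⟨j, hj, rfl⟩
    · exact Or.inl h
    · by_cases h : j ≤ i
      · exact Or.inl (T_ins_zero n i v m hi j h)
      · right
        exact Finset.mem_image_of_mem _ (by rw [Finset.mem_Ico]; omega)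
  refine (Finset.card_le_card hsub).trans ((Finset.card_insert_le _ _).trans ?_)
  have := Finset.card_image_le (s := Finset.Ico (i + 1) (n + 2))
    (f := T (n + 1) (fun l => (ins i 0 v l : ℝ) / m))
  rw [Nat.card_Ico] at this
  omega

theorem T_mem (k : ℕ) (s : ℕ → ℝ) (hs : ∀ l, l < k → 0 ≤ s l ∧ s l ≤ 1) (j : ℕ) :
    0 ≤ T k s j ∧ T k s j ≤ 1 := by
  unfold T
  constructor
  · exact Finset.prod_nonneg fun l hl => (hs l (Finset.mem_Ico.1 hl).2).1
  · exact Finset.prod_le_one (fun l hl => (hs l (Finset.mem_Ico.1 hl).2).1)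
      (fun l hl => (hs l (Finset.mem_Ico.1 hl).2).2)

theorem T_lip (k : ℕ) (s s' : ℕ → ℝ) (η : ℝ) (hs : ∀ l, l < k → 0 ≤ s l ∧ s l ≤ 1)
    (hs' : ∀ l, l < k → 0 ≤ s' l ∧ s' l ≤ 1) (h : ∀ l, l < k → |s l - s' l| ≤ η) (hη : 0 ≤ η) :
    ∀ d j, j + d = k → |T k s j - T k s' j| ≤ d * η := by
  intro d
  induction d with
  | zero =>
    intro j hj
    rw [T_top _ _ _ (by omega), T_top _ _ _ (by omega)]
    simp
  | succ d ih =>
    intro j hj
    rw [T_step k s j (by omega), T_step k s' j (by omega)]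
    have h1 := ih (j + 1) (by omega)
    have h2 := h j (by omega)
    have h3 := T_mem k s' hs' (j + 1)
    have h4 := hs j (by omega)
    have e : s j * T k s (j + 1) - s' j * T k s' (j + 1) =
        s j * (T k s (j + 1) - T k s' (j + 1)) + (s j - s' j) * T k s' (j + 1) := by ring
    rw [e]
    calc _ ≤ |s j * (T k s (j + 1) - T k s' (j + 1))| + |(s j - s' j) * T k s' (j + 1)| :=
          abs_add_le _ _
      _ = s j * |T k s (j + 1) - T k s' (j + 1)| + |s j - s' j| * T k s' (j + 1) := by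
          rw [abs_mul, abs_mul, abs_of_nonneg h4.1, abs_of_nonneg h3.1]
      _ ≤ 1 * (d * η) + η * 1 := by
          refine add_le_add (mul_le_mul h4.2 h1 (abs_nonneg _) zero_le_one)
            (mul_le_mul h2 h3.2 h3.1 hη)
      _ = ((d + 1 : ℕ) : ℝ) * η := by push_cast; ring

theorem cset_lip (k : ℕ) (s s' : ℕ → ℝ) (η : ℝ) (hs : ∀ l, l < k → 0 ≤ s l ∧ s l ≤ 1)
    (hs' : ∀ l, l < k → 0 ≤ s' l ∧ s' l ≤ 1) (h : ∀ l, l < k → |s l - s' l| ≤ η) (hη : 0 ≤ η) :
    Metric.hausdorffDist ((cset k s : Finset ℝ) : Set ℝ) ((cset k s' : Finset ℝ) : Set ℝ)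
      ≤ k * η := by
  have key : ∀ s s' : ℕ → ℝ, (∀ l, l < k → 0 ≤ s l ∧ s l ≤ 1) →
      (∀ l, l < k → 0 ≤ s' l ∧ s' l ≤ 1) → (∀ l, l < k → |s l - s' l| ≤ η) →
      ∀ x ∈ ((cset k s : Finset ℝ) : Set ℝ), ∃ y ∈ ((cset k s' : Finset ℝ) : Set ℝ),
        dist x y ≤ k * η := by
    intro s s' hs hs' h x hx
    rw [Finset.mem_coe, mem_cset] at hx
    rcases hx with rfl | ⟨j, hj, rfl⟩
    · refine ⟨0, Finset.mem_coe.2 (mem_cset.2 (Or.inl rfl)), ?_⟩
      rw [dist_self]; positivity
    · refine ⟨T k s' j, Finset.mem_coe.2 (mem_cset.2 (Or.inr ⟨j, hj, rfl⟩)), ?_⟩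
      rw [Real.dist_eq]
      refine (T_lip k s s' η hs hs' h hη (k - j) j (by omega)).trans ?_
      refine mul_le_mul_of_nonneg_right ?_ hη
      exact_mod_cast Nat.sub_le _ _
  refine Metric.hausdorffDist_le_of_mem_dist (by positivity) (key s s' hs hs' h)
    (key s' s hs' hs fun l hl => ?_)
  rw [abs_sub_comm]
  exact h l hl

/-! ### labels -/

/-- `z 0 < z 1 < ⋯ < z (n + 1)` enumerates `R`. -/
def Rep (n : ℕ) (R : Finset ℝ) (z : ℕ → ℝ) : Prop :=
  (∀ j, j < n + 1 → z j < z (j + 1)) ∧ R = (Finset.range (n + 2)).image z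

/-- the ratio of consecutive distances to the smallest point -/
noncomputable def rho (z : ℕ → ℝ) (j : ℕ) : ℝ := (z (j + 1) - z 0) / (z (j + 2) - z 0)

/-- All ratios are between `1/4` and `3/4`. -/
def Good (n : ℕ) (z : ℕ → ℝ) : Prop := ∀ j, j < n → 1 / 4 < rho z j ∧ rho z j < 3 / 4

open Classical in
/-- The label. -/
noncomputable def label (n : ℕ) (R : Finset ℝ) : ℕ :=
  if h : ∃ z, Rep n R z ∧ Good n z then fst n (fun j => 1 / 2 < rho h.choose j) else n + 1

theorem Rep.lt {n : ℕ} {R : Finset ℝ} {z : ℕ → ℝ} (h : Rep n R z) :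
    ∀ i j, i < j → j < n + 2 → z i < z j := by
  intro i j hij
  induction j with
  | zero => omega
  | succ j ih =>
    intro hj
    rcases Nat.lt_or_ge i j with h1 | h1
    · exact (ih h1 (by omega)).trans (h.1 j (by omega))
    · have : i = j := by omega
      subst this
      exact h.1 i (by omega)

theorem Rep.card {n : ℕ} {R : Finset ℝ} {z : ℕ → ℝ} (h : Rep n R z) : R.card = n + 2 := by
  rw [h.2, Finset.card_image_of_injOn, Finset.card_range]
  intro i hi j hj hij
  rw [Finset.mem_coe, Finset.mem_range] at hi hj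
  rcases lt_trichotomy i j with h1 | h1 | h1
  · exact absurd hij (ne_of_lt (h.lt i j h1 hj))
  · exact h1
  · exact absurd hij.symm (ne_of_lt (h.lt j i h1 hi))

theorem Rep.unique {n : ℕ} {R : Finset ℝ} {z z' : ℕ → ℝ} (h : Rep n R z) (h' : Rep n R z') :
    ∀ j, j < n + 2 → z j = z' j := by
  have hc := h.card
  have key : ∀ w : ℕ → ℝ, Rep n R w → (fun j : Fin (n + 2) => w j) = R.orderEmbOfFin hc := by
    intro w hw
    apply Finset.orderEmbOfFin_unique
    · intro j
      rw [hw.2]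
      exact Finset.mem_image_of_mem _ (Finset.mem_range.2 j.2)
    · intro i j hij
      exact hw.lt i j hij j.2
  intro j hj
  have h1 := congrFun ((key z h).trans (key z' h').symm) ⟨j, hj⟩
  exact h1

theorem label_of_rep {n : ℕ} {R : Finset ℝ} {z : ℕ → ℝ} (h : Rep n R z) (hg : Good n z) :
    label n R = fst n (fun j => 1 / 2 < rho z j) := by
  have hex : ∃ z, Rep n R z ∧ Good n z := ⟨z, h, hg⟩
  unfold label
  rw [dif_pos hex]
  apply fst_congr
  intro j hj
  have h1 := h.unique hex.choose_spec.1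
  unfold rho
  rw [h1 0 (by omega), h1 (j + 1) (by omega), h1 (j + 2) (by omega)]

theorem label_of_not {n : ℕ} {R : Finset ℝ} (h : ¬ ∃ z, Rep n R z ∧ Good n z) :
    label n R = n + 1 := by
  unfold label
  rw [dif_neg h]

theorem label_le (n : ℕ) (R : Finset ℝ) : label n R ≤ n + 1 := by
  by_cases h : ∃ z, Rep n R z ∧ Good n z
  · obtain ⟨z, h1, h2⟩ := h
    rw [label_of_rep h1 h2]
    exact (fst_le _ _).trans (by omega)
  · rw [label_of_not h]

theorem label_card {n : ℕ} {R : Finset ℝ} (h : R.card ≤ n + 1) : label n R = n + 1 := by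
  apply label_of_not
  rintro ⟨z, h1, -⟩
  have := h1.card
  omega

theorem label_cset_good (n m : ℕ) (hm : 0 < m) (v : ℕ → ℕ)
    (hv : ∀ j, j < n → (m : ℝ) / 4 < v j ∧ (v j : ℝ) < 3 * m / 4) :
    label n (cset n (fun l => (v l : ℝ) / m)) = fst n (fun j => (m : ℝ) / 2 < v j) := by
  have hmR : (0 : ℝ) < m := by exact_mod_cast hm
  set s : ℕ → ℝ := fun l => (v l : ℝ) / m with hs
  have hs1 : ∀ l, l < n → 1 / 4 < s l ∧ s l < 3 / 4 := by
    intro l hl
    have := hv l hl
    simp only [hs]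
    constructor
    · rw [lt_div_iff₀ hmR]; linarith
    · rw [div_lt_iff₀ hmR]; linarith
  have hT : ∀ j, 0 < T n s j := by
    intro j
    unfold T
    exact Finset.prod_pos fun l hl => by
      have := hs1 l (Finset.mem_Ico.1 hl).2
      linarith
  have hrep : Rep n (cset n s) (zz n s) := by
    refine ⟨fun j hj => ?_, rfl⟩
    rcases j with _ | j
    · exact hT 0
    · show T n s j < T n s (j + 1)
      rw [T_step n s j (by omega)]
      have h1 := hs1 j (by omega)
      have h2 := hT (j + 1)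
      nlinarith
  have hrho : ∀ j, j < n → rho (zz n s) j = s j := by
    intro j hj
    show (T n s j - 0) / (T n s (j + 1) - 0) = s j
    rw [sub_zero, sub_zero, T_step n s j hj, mul_div_assoc, div_self (hT (j + 1)).ne', mul_one]
  rw [label_of_rep hrep (fun j hj => by rw [hrho j hj]; exact hs1 j hj)]
  apply fst_congr
  intro j hj
  rw [hrho j hj]
  simp only [hs]
  rw [lt_div_iff₀ hmR]
  constructor <;> intro h <;> linarith

theorem label_cset_bad (n m : ℕ) (hm : 0 < m) (v : ℕ → ℕ) (hvm : ∀ j, j < n → v j ≤ m)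
    (hv : ¬ ∀ j, j < n → (m : ℝ) / 4 < v j ∧ (v j : ℝ) < 3 * m / 4) :
    label n (cset n (fun l => (v l : ℝ) / m)) = n + 1 := by
  have hmR : (0 : ℝ) < m := by exact_mod_cast hm
  set s : ℕ → ℝ := fun l => (v l : ℝ) / m with hs
  have hs1 : ∀ l, l < n → 0 ≤ s l ∧ s l ≤ 1 := by
    intro l hl
    simp only [hs]
    constructor
    · positivity
    · rw [div_le_one hmR]
      exact_mod_cast hvm l hl
  apply label_of_not
  rintro ⟨z, h1, h2⟩
  apply hv
  have hmono : ∀ j, j < n + 1 → zz n s j ≤ zz n s (j + 1) := by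
    intro j hj
    rcases j with _ | j
    · exact (T_mem n s hs1 0).1
    · show T n s j ≤ T n s (j + 1)
      rw [T_step n s j (by omega)]
      have h3 := hs1 j (by omega)
      have h4 := T_mem n s hs1 (j + 1)
      nlinarith [h3.1, h3.2, h4.1, h4.2]
  have hinj : Set.InjOn (zz n s) (Finset.range (n + 2) : Set ℕ) := by
    apply Finset.injOn_of_card_image_eq
    rw [Finset.card_range]
    exact h1.card
  have hrep : Rep n (cset n s) (zz n s) := by
    refine ⟨fun j hj => lt_of_le_of_ne (hmono j hj) fun h => ?_, rfl⟩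
    have := hinj (by simp; omega) (by simp; omega) h
    omega
  have huniq := h1.unique hrep
  have hpos : ∀ j, j ≤ n → 0 < T n s j := by
    intro j hj
    have := hrep.lt 0 (j + 1) (by omega) (by omega)
    exact this
  intro j hj
  have h3 := h2 j hj
  have h4 : rho z j = s j := by
    unfold rho
    rw [huniq 0 (by omega), huniq (j + 1) (by omega), huniq (j + 2) (by omega)]
    show (T n s j - 0) / (T n s (j + 1) - 0) = s j
    rw [sub_zero, sub_zero, T_step n s j hj, mul_div_assoc, div_self (hpos (j + 1) (by omega)).ne',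
      mul_one]
  rw [h4] at h3
  simp only [hs] at h3
  rw [lt_div_iff₀ hmR, div_lt_iff₀ hmR] at h3
  constructor <;> linarith

end Pool.Agent.X205.FinRet
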